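import Pool.Agent.H.MP_89bbb3_gt.C

open scoped ContDiff

namespace Pool.Agent.Results.MP_89bbb3_gt.No

open Pool.Agent.H.MP_89bbb3_gt

theorem result : ∃ (g : Met) (k : W 3 → W 3), IsLorentz g ∧ IsCKF g k ∧ (∀ x, k x ≠ 0) ∧
    (∀ x a b, ∑ r, cotton g x a b r * k x r = 0) ∧ (∀ p, ∃ c a b, cotton g p c a b ≠ 0) ∧
    ∀ (h : ℝ → ℝ), ContDiff ℝ ∞ h → ∀ U : Set (W 3), IsOpen U → U.Nonempty →
      ∀ (φ : W 3 → W 3) (u : W 3 → ℝ), ContDiffOn ℝ ∞ φ U → ContDiffOn ℝ ∞ u U →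
        ¬ Conf g (gh h) U φ u :=
  main

end Pool.Agent.Results.MP_89bbb3_gt.No
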